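import Pool.Agent.H12.KG.Targets

/-!
# Project KEW, block G: INTB (helper40)
-/

namespace Pool.Agent.H40.KG

open AlgebraicGeometry CategoryTheory Pool.Agent.H12.KP Pool.Agent.H12.KG

universe u

theorem jac {O R : Type u} [CommRing O] [IsLocalRing O] [CommRing R] [Algebra O R]
    [Algebra.IsIntegral O R] (π : O) (hπ : π ∈ IsLocalRing.maximalIdeal O) (y : R) :
    IsUnit (1 + algebraMap O R π * y) := by
  have h : algebraMap O R π ∈ Ideal.jacobson (⊥ : Ideal R) := by
    rw [Ideal.jacobson, Ideal.mem_sInf]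
    intro J hJ
    obtain ⟨-, hJm⟩ := hJ
    have h1 : (J.comap (algebraMap O R)).IsMaximal :=
      Ideal.isMaximal_comap_of_isIntegral_of_isMaximal J
    have h2 := IsLocalRing.eq_maximalIdeal h1
    have h3 : π ∈ J.comap (algebraMap O R) := by rw [h2]; exact hπ
    exact h3
  have := Ideal.mem_jacobson_bot.1 h y
  rwa [add_comm]

theorem stepU (hBIN : S_BIN.{u}) {O R : Type u} [CommRing O] [IsLocalRing O] [CommRing R]
    [Algebra O R] [Algebra.IsIntegral O R] (p : ℕ) (hp : p.Prime) (π ε : O)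
    (hπ : π ∈ IsLocalRing.maximalIdeal O) (hε : IsUnit ε) (e a r : ℕ)
    (hpe : (p : O) = ε * π ^ e) (ha : 1 ≤ a) (hea : e < a * (p - 1)) (y : R) (k : ℕ)
    (hk : a ≤ k) :
    ∃ (u : Rˣ) (y' : R), 1 + algebraMap O R π ^ (a + r * e) * y =
      (u : R) ^ (p ^ r) * (1 + algebraMap O R π ^ (k + r * e) * y') := by
  induction k, hk using Nat.le_induction with
  | base => exact ⟨1, y, by simp⟩
  | succ k hk ih =>
    obtain ⟨u, y', h⟩ := ih
    obtain ⟨E, hE⟩ := hε
    have hpe' : (p : R) = algebraMap O R ε * algebraMap O R π ^ e := by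
      rw [← map_pow, ← map_mul, ← hpe, map_natCast]
    set P : R := algebraMap O R π with hP
    set c : R := algebraMap O R (↑E⁻¹ : O) with hc
    have hcε : algebraMap O R ε * c = 1 := by
      rw [hc, ← hE, ← map_mul, Units.mul_inv, map_one]
    obtain ⟨z, hz⟩ := hBIN R p hp P (algebraMap O R ε) e a hpe' ha hea r k hk 1 (c ^ r * y')
    have hcr : algebraMap O R ε ^ r * (c ^ r * y') = y' := by
      rw [← mul_assoc, ← mul_pow, hcε, one_pow, one_mul]
    rw [one_pow, one_pow, mul_one, hcr] at hz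
    have hu : IsUnit (1 + P ^ k * (c ^ r * y')) := by
      obtain ⟨j, rfl⟩ : ∃ j, k = j + 1 := ⟨k - 1, by omega⟩
      have := jac π hπ (P ^ j * (c ^ r * y'))
      rw [← hP] at this
      rw [pow_succ']
      rw [mul_assoc]
      exact this
    obtain ⟨u1, hu1⟩ := hu
    rw [← hu1] at hz
    refine ⟨u * u1, - z * ((u1⁻¹ : Rˣ) : R) ^ (p ^ r), ?_⟩
    have hinv : (u1 : R) ^ (p ^ r) * ((u1⁻¹ : Rˣ) : R) ^ (p ^ r) = 1 := by
      rw [← mul_pow, Units.mul_inv, one_pow]
    rw [h, Units.val_mul, mul_pow]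
    have e1 : (1 : R) + P ^ (k + r * e) * y' = (u1 : R) ^ (p ^ r) - P ^ (k + 1 + r * e) * z := by
      rw [hz]; ring
    rw [e1]
    have : (u : R) ^ (p ^ r) * (u1 : R) ^ (p ^ r) *
        (1 + P ^ (k + 1 + r * e) * (- z * ((u1⁻¹ : Rˣ) : R) ^ (p ^ r))) =
        (u : R) ^ (p ^ r) * ((u1 : R) ^ (p ^ r) - P ^ (k + 1 + r * e) * z *
          ((u1 : R) ^ (p ^ r) * ((u1⁻¹ : Rˣ) : R) ^ (p ^ r))) := by ring
    rw [this, hinv, mul_one]

theorem bound {O K : Type u} [CommRing O] [Field K] [Algebra O K] (π : O)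
    (hz : ∀ z : K, ∃ (m : ℕ) (s : O), algebraMap O K π ^ m * z = algebraMap O K s)
    (N : Submodule O K) (hN : N.FG) :
    ∃ M : ℕ, ∀ x ∈ N, ∃ s : O, algebraMap O K π ^ M * x = algebraMap O K s := by
  obtain ⟨T, hT⟩ := hN
  choose m s hms using hz
  refine ⟨T.sup m, ?_⟩
  intro x hx
  rw [← hT] at hx
  induction hx using Submodule.span_induction with
  | mem x hx =>
    have hle : m x ≤ T.sup m := Finset.le_sup (by exact_mod_cast hx)
    refine ⟨π ^ (T.sup m - m x) * s x, ?_⟩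
    rw [map_mul, map_pow, ← hms x, ← mul_assoc, ← pow_add]
    congr 2
    omega
  | zero => exact ⟨0, by simp⟩
  | add x y _ _ hx hy =>
    obtain ⟨s1, h1⟩ := hx
    obtain ⟨s2, h2⟩ := hy
    exact ⟨s1 + s2, by rw [mul_add, h1, h2, map_add]⟩
  | smul c x _ hx =>
    obtain ⟨s1, h1⟩ := hx
    refine ⟨c * s1, ?_⟩
    rw [Algebra.smul_def, map_mul, ← h1]
    ring

theorem pf_INTB (hBIN : S_BIN.{u}) : S_INTB.{u} := by
  intro O K _ _ _ φ p hp π ε hπ hε e a r hpe ha hea hz b hb
  let _ := φ.toAlgebra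
  have hφ : φ = algebraMap O K := rfl
  have hbi : IsIntegral O b := hb
  have : Algebra.IsIntegral O (Algebra.adjoin O {b}) := by
    constructor
    intro x
    have hx : IsIntegral O (x : K) := by
      have := _root_.adjoin_le_integralClosure hbi x.2
      exact this
    exact (isIntegral_algebraMap_iff (A := Algebra.adjoin O {b}) (B := K)
      (Subtype.val_injective)).1 hx
  obtain ⟨M, hM⟩ := bound (O := O) (K := K) π hz
    (Subalgebra.toSubmodule (Algebra.adjoin O {b})) hbi.fg_adjoin_singleton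
  set R := Algebra.adjoin O {b} with hR
  obtain ⟨u, y', h⟩ := stepU hBIN (O := O) (R := R) p hp π ε hπ hε e a r hpe ha hea
    ⟨b, Algebra.self_mem_adjoin_singleton O b⟩ (a + M) (by omega)
  obtain ⟨s, hs⟩ := hM (y' : K) y'.2
  refine ⟨((u : R) : K), s, ?_, ?_⟩
  · have h1 : ((u : R) : K) * (((u⁻¹ : Rˣ) : R) : K) = 1 := by
      rw [← Subalgebra.coe_mul, Units.mul_inv, Subalgebra.coe_one]
    exact left_ne_zero_of_mul_eq_one h1
  · have h2 := congrArg (fun z : R => (z : K)) h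
    simp only [Subalgebra.coe_add, Subalgebra.coe_mul, Subalgebra.coe_pow, Subalgebra.coe_one,
      Subalgebra.coe_algebraMap] at h2
    rw [hφ, ← hs]
    rw [show r * e + a = a + r * e by ring, h2]
    rw [show a + M + r * e = a + r * e + M by ring, pow_add _ (a + r * e) M]
    ring

end Pool.Agent.H40.KG
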